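import Pool.Agent.Q164.Theta2

/-!
For odd `n ≥ 3` the polynomial `p_n(z) = ∑_{k ≤ n} (-1)^k (2k+1) z^{k(k+1)}` has exactly two real
zeros, and both are simple.
-/

namespace Pool.Agent.Results.MP_27c522_an.OddTheta

open Polynomial Pool.Agent.Q164.Theta1 Pool.Agent.Q164.Theta2

/-- The polynomial `p_n`. -/
noncomputable def p (n : ℕ) : ℝ[X] :=
  ∑ k ∈ Finset.range (n + 1), C ((-1) ^ k * (2 * (k : ℝ) + 1)) * X ^ (k * (k + 1))

theorem p_eq (n : ℕ) : p n = (Ap n).comp (X ^ 2) := by
  rw [p, Ap, Polynomial.sum_comp]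
  apply Finset.sum_congr rfl
  intro j _
  rw [mul_comp, C_comp, pow_comp, X_comp, ← pow_mul, two_T]

theorem eval_p (n : ℕ) (z : ℝ) : (p n).eval z = A n (z ^ 2) := by
  rw [p_eq, eval_comp, eval_Ap, eval_pow, eval_X]

theorem eval_deriv_p (n : ℕ) (z : ℝ) :
    (derivative (p n)).eval z = 2 * z * (derivative (Ap n)).eval (z ^ 2) := by
  rw [p_eq, derivative_comp, eval_mul, eval_comp, derivative_X_pow, eval_mul, eval_pow, eval_X]
  simp

theorem A_at_zero (m : ℕ) : A m 0 = 1 := by
  induction m with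
  | zero => exact A_zero 0
  | succ m ih =>
    rw [A_succ, ih, t_succ, zero_pow (Nat.succ_ne_zero m)]
    ring

/-- For every odd `n ≥ 3` the real zeros of `p n` are exactly two numbers `r` and `-r`, `r > 0`,
and they are simple zeros. -/
theorem result : ∀ n : ℕ, 3 ≤ n → Odd n →
    {x : ℝ | (p n).eval x = 0}.ncard = 2 ∧
      ∀ x : ℝ, (p n).eval x = 0 → (derivative (p n)).eval x ≠ 0 := by
  intro n hn3 hn
  obtain ⟨y₀, hy₀, hA, hder, huniq⟩ := odd_unique hn hn3
  set r := Real.sqrt y₀ with hr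
  have hrpos : 0 < r := Real.sqrt_pos.2 hy₀
  have hr2 : r ^ 2 = y₀ := Real.sq_sqrt hy₀.le
  have hroot : ∀ z : ℝ, (p n).eval z = 0 ↔ z = r ∨ z = -r := by
    intro z
    rw [eval_p]
    constructor
    · intro h
      have hz : z ≠ 0 := by
        rintro rfl
        rw [zero_pow two_ne_zero, A_at_zero] at h
        exact one_ne_zero h
      have h1 := huniq (z ^ 2) (by positivity) h
      rw [← hr2] at h1
      exact sq_eq_sq_iff_eq_or_eq_neg.1 h1
    · rintro (h | h)
      · rw [h, hr2, hA]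
      · rw [h, neg_sq, hr2, hA]
  refine ⟨?_, ?_⟩
  · have h5 : {x : ℝ | (p n).eval x = 0} = {r, -r} := by
      ext z
      rw [Set.mem_ofPred_eq, hroot]
      simp
    rw [h5, Set.ncard_pair]
    linarith
  · intro z h1
    rw [hroot] at h1
    rw [eval_deriv_p]
    have h3 : z ^ 2 = y₀ := by
      rcases h1 with h1 | h1
      · rw [h1, hr2]
      · rw [h1, neg_sq, hr2]
    have h4 : z ≠ 0 := by
      rintro rfl
      rw [zero_pow two_ne_zero] at h3
      exact hy₀.ne h3
    rw [h3]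
    exact mul_ne_zero (mul_ne_zero two_ne_zero h4) hder

end Pool.Agent.Results.MP_27c522_an.OddTheta
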